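import Pool.Agent.H71.CQ.Basic

/-!
# The class is Borel (board cqt_modules, row MEM)
-/

set_option autoImplicit false

open Set

namespace Pool.Agent.H68.CQ

open Pool.Agent.H71.CQ

/-- measurability of `k ≤ encard` of a random subset of `ℕ` -/
theorem meas_le_encard {Ω : Type} [MeasurableSpace Ω] {S : Ω → Set ℕ}
    (hS : ∀ y, Measurable fun w => y ∈ S w) (k : ℕ) :
    Measurable fun w => (k : ℕ∞) ≤ (S w).encard := by
  have h1 : ∀ w, ((k : ℕ∞) ≤ (S w).encard) ↔ ∃ T : Finset ℕ, T.card = k ∧ ∀ y ∈ T, y ∈ S w := by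
    intro w
    constructor
    · intro h
      obtain ⟨T, hT, hc⟩ := Set.exists_subset_encard_eq h
      have hf : T.Finite := by
        rw [← Set.encard_lt_top_iff, hc]
        exact ENat.natCast_lt_top k
      refine ⟨hf.toFinset, ?_, fun y hy => hT (hf.mem_toFinset.1 hy)⟩
      have h2 : ((hf.toFinset.card : ℕ) : ℕ∞) = (k : ℕ∞) := by
        rw [← hc, ← Set.encard_coe_eq_coe_finsetCard, hf.coe_toFinset]
      exact_mod_cast h2
    · rintro ⟨T, hT, hs⟩
      have h2 : ((T : Set ℕ)).encard ≤ (S w).encard := Set.encard_le_encard (fun y hy => hs y hy)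
      rw [Set.encard_coe_eq_coe_finsetCard, hT] at h2
      exact h2
  have h2 : (fun w => (k : ℕ∞) ≤ (S w).encard) =
      fun w => ∃ T : Finset ℕ, T.card = k ∧ ∀ y ∈ T, y ∈ S w := funext fun w => propext (h1 w)
  rw [h2]
  exact Measurable.exists fun T => measurable_const.and
    (Measurable.forall fun y => measurable_const.imp (hS y))

/-- measurability of the number of elements of a random subset of `ℕ` -/
theorem meas_encard_eq {Ω : Type} [MeasurableSpace Ω] {S : Ω → Set ℕ}
    (hS : ∀ y, Measurable fun w => y ∈ S w) (k : ℕ∞) :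
    Measurable fun w => (S w).encard = k := by
  induction k using ENat.recTopCoe with
  | top =>
    have h1 : (fun w => (S w).encard = ⊤) = fun w => ∀ m : ℕ, (m : ℕ∞) ≤ (S w).encard := by
      funext w
      refine propext ⟨fun h m => by rw [h]; exact le_top, fun h => ?_⟩
      exact ENat.eq_top_iff_forall_ge.2 h
    rw [h1]
    exact Measurable.forall fun m => meas_le_encard hS m
  | coe k =>
    have h1 : (fun w => (S w).encard = (k : ℕ∞)) =
        fun w => (k : ℕ∞) ≤ (S w).encard ∧ ¬ ((k + 1 : ℕ) : ℕ∞) ≤ (S w).encard := by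
      funext w
      refine propext ⟨fun h => ?_, fun h => ?_⟩
      · rw [h]
        refine ⟨le_rfl, fun h2 => ?_⟩
        have h3 : k + 1 ≤ k := by exact_mod_cast h2
        omega
      · refine le_antisymm ?_ h.1
        have h2 : (S w).encard < ((k + 1 : ℕ) : ℕ∞) := not_le.1 h.2
        rw [Nat.cast_add, Nat.cast_one] at h2
        exact ENat.lt_add_one_iff (ENat.natCast_ne_top k) |>.1 h2
    rw [h1]
    exact (meas_le_encard hS k).and (meas_le_encard hS (k + 1)).not

theorem pf_MEM : T_MEM := by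
  intro L _ _ N hN
  have h1 : ∀ i j, Measurable fun e : ℕ → ℕ → L => e i j := fun i j =>
    (measurable_pi_apply j).comp (measurable_pi_apply i)
  have h2 : {e : ℕ → ℕ → L | Mem N e} = {e | (∀ x y, e y x = N.rev (e x y)) ∧
      (∀ x y, e x x = N.src (e x y)) ∧ (∀ x y, e x y ∈ N.dia ↔ x = y) ∧
      (∀ x y, e x y ∈ N.U) ∧
      ∀ n x, ∃ k : ℕ∞, {y | e x y ∈ N.B n}.encard = k ∧ N.nu n (e x x) = k} := by
    ext e
    refine ⟨fun h => ⟨h.rev, h.src, h.dia, h.U, fun n x => ⟨_, rfl, (h.cnt n x).symm⟩⟩,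
      fun h => ⟨⟨h.1, h.2.1, h.2.2.1, h.2.2.2.1⟩, fun n x => ?_⟩⟩
    obtain ⟨k, hk, hk'⟩ := h.2.2.2.2 n x
    rw [hk, hk']
  rw [h2, measurableSet_setOfPred]
  have h3 : ∀ {Ω : Type} [MeasurableSpace Ω] {f : (ℕ → ℕ → L) → Ω} {A : Set Ω}, Measurable f →
      MeasurableSet A → Measurable fun y => f y ∈ A := fun hf hA =>
    measurableSet_setOfPred.1 (hf hA)
  refine (Measurable.forall fun x => Measurable.forall fun y =>
      (h1 y x).eq (hN.rev.comp (h1 x y))).and
    ((Measurable.forall fun x => Measurable.forall fun y =>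
      (h1 x x).eq (hN.src.comp (h1 x y))).and
    ((Measurable.forall fun x => Measurable.forall fun y =>
      (h3 (h1 x y) hN.dia).iff measurable_const).and
    ((Measurable.forall fun x => Measurable.forall fun y => h3 (h1 x y) hN.U).and
    (Measurable.forall fun n => Measurable.forall fun x => Measurable.exists fun k =>
      (meas_encard_eq (S := fun e : ℕ → ℕ → L => {y | e x y ∈ N.B n})
        (fun y => h3 (h1 x y) (hN.B n)) k).and ?_))))
  exact h3 ((hN.nu n).comp (h1 x x)) (measurableSet_singleton k)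

end Pool.Agent.H68.CQ
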